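import Pool.Agent.Helper15.CC.KR

/-!
# Integrality and slopes
-/

set_option autoImplicit false

namespace Pool.Agent.Helper15.CC

open Pool.Agent.Helper70.CC

variable {F : Type} [Field F] [Fintype F]

theorem valuation_card_lt_one {A : ValuationSubring ℂ}
    (hA : A.valuation ((ringChar F : ℕ) : ℂ) < 1) : A.valuation (Fintype.card F : ℂ) < 1 := by
  obtain ⟨n, hn, hc, -⟩ := card_eq_pow (F := F)
  rw [hc]; push_cast; rw [map_pow]
  exact pow_lt_one₀ zero_le hA hn.ne'

theorem valuation_card_pos (A : ValuationSubring ℂ) :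
    0 < A.valuation (Fintype.card F : ℂ) := by
  rw [zero_lt_iff]
  exact (Valuation.ne_zero_iff _).2 (card_ne_zero' (F := F))

theorem sum_slopes {m : ℕ} {ι : Type} [Fintype ι] {α : ι → ℂ} {s : ι → ℕ}
    {A : ValuationSubring ℂ} {ν : ℕ} (hA : A.valuation ((ringChar F : ℕ) : ℂ) < 1)
    (hs : ∀ j, A.valuation (α j ^ resDeg m F) =
      A.valuation ((Fintype.card F : ℂ) ^ s j))
    (hint : IsIntegral ℤ ((∏ j, α j) / (Fintype.card F : ℂ) ^ ν)) :
    ν * resDeg m F ≤ ∑ j, s j := by
  have hq1 := valuation_card_lt_one hA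
  have hq0 := valuation_card_pos (F := F) A
  have h1 := valuation_le_one hint A
  rw [map_div₀, map_pow, div_le_one₀ (pow_pos hq0 _), map_prod] at h1
  have h2 : (∏ j, A.valuation (α j)) ^ resDeg m F =
      A.valuation (Fintype.card F : ℂ) ^ ∑ j, s j := by
    rw [← Finset.prod_pow, ← Finset.prod_pow_eq_pow_sum]
    refine Finset.prod_congr rfl fun j _ => ?_
    rw [← map_pow, hs j, map_pow]
  have h3 : (∏ j, A.valuation (α j)) ^ resDeg m F ≤
      (A.valuation (Fintype.card F : ℂ) ^ ν) ^ resDeg m F :=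
    pow_le_pow_left₀ zero_le h1 _
  rw [h2, ← pow_mul] at h3
  exact (pow_le_pow_iff_right_of_lt_one₀ hq0 hq1).1 h3

/-! ### The product formula for Jacobi sums -/

theorem jac_ne_zero {χ φ : MulChar F ℂ} (hχ : χ ≠ 1) (hφ : φ ≠ 1) (hχφ : χ * φ ≠ 1) :
    jacobiSum χ φ ≠ 0 := by
  intro h0
  have h : ringChar ℂ ≠ ringChar F := by
    rw [ringChar.eq_zero]
    obtain ⟨-, -, -, hp⟩ := card_eq_pow (F := F)
    exact hp.ne_zero.symm
  have := jacobiSum_mul_jacobiSum_inv h hχ hφ hχφ
  rw [h0, zero_mul] at this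
  exact card_ne_zero' (F := F) this.symm

theorem exists_primitive : ∃ ψ : AddChar F ℂ, ψ.IsPrimitive :=
  ⟨_, AddChar.FiniteField.primitiveChar_to_Complex_isPrimitive F⟩

/-- The two ways to multiply three Gauss sums. -/
theorem jac_mul {χ ψ φ : MulChar F ℂ} (h1 : χ * ψ ≠ 1) (h2 : ψ * φ ≠ 1)
    (h3 : χ * ψ * φ ≠ 1) :
    jacobiSum χ ψ * jacobiSum (χ * ψ) φ = jacobiSum ψ φ * jacobiSum χ (ψ * φ) := by
  obtain ⟨θ, hθ⟩ := exists_primitive (F := F)
  have hc := card_ne_zero' (F := F)
  have g1 := gaussSum_ne_zero_of_nontrivial hc h1 hθ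
  have g2 := gaussSum_ne_zero_of_nontrivial hc h2 hθ
  have g3 := gaussSum_ne_zero_of_nontrivial hc h3 hθ
  rw [jacobiSum_eq_gaussSum_mul_gaussSum_div_gaussSum hc h1 hθ,
    jacobiSum_eq_gaussSum_mul_gaussSum_div_gaussSum hc h3 hθ,
    jacobiSum_eq_gaussSum_mul_gaussSum_div_gaussSum hc h2 hθ,
    jacobiSum_eq_gaussSum_mul_gaussSum_div_gaussSum hc (by rwa [← mul_assoc]) hθ, ← mul_assoc]
  field_simp

/-! ### The value of a relation -/

section
variable (A : ValuationSubring ℂ)

open Classical in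
/-- The value of a complex number as a unit (`1` for zero). -/
noncomputable def wval (z : ℂ) : (A.ValueGroup)ˣ :=
  if h : z = 0 then 1 else Units.mk0 (A.valuation z) ((Valuation.ne_zero_iff _).2 h)

theorem coe_wval {z : ℂ} (h : z ≠ 0) : ((wval A z : (A.ValueGroup)ˣ) : A.ValueGroup) =
    A.valuation z := by
  unfold wval
  rw [dif_neg h]; rfl

/-- The value of an element of the free abelian group. -/
noncomputable def hval : (ℂ →₀ ℤ) →+ Additive (A.ValueGroup)ˣ :=
  Finsupp.liftAddHom (fun z => zmultiplesHom _ (Additive.ofMul (wval A z)))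

theorem hval_sym (z : ℂ) : hval A (sym z) = Additive.ofMul (wval A z) := by
  simp [hval, sym]

theorem hval_relations {m : ℕ} {x : ℂ →₀ ℤ} (hx : x ∈ relations m F) : hval A x = 0 := by
  have : relations m F ≤ (hval A).ker := by
    unfold relations
    rw [AddSubgroup.closure_le]
    rintro x ((⟨α, β, hα, hβ, ⟨N, hN, hab⟩, rfl⟩ | ⟨α, hα, rfl⟩) |
      ⟨χ, ψ, φ, -, -, -, h1, h2, h3, h4, h5, h6, rfl⟩)
    · have hα0 := IsCM.ne_zero hα
      have hβ0 := IsCM.ne_zero hβ
      have hv : A.valuation α = A.valuation β := by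
        have h := congrArg A.valuation hab
        rw [map_pow, map_pow] at h
        exact (pow_left_inj₀ zero_le zero_le hN.ne').1 h
      have : wval A α = wval A β := Units.ext (by rw [coe_wval A hα0, coe_wval A hβ0, hv])
      show hval A (sym α - sym β) = 0
      rw [map_sub, hval_sym, hval_sym, this, sub_self]
    · have hα0 := IsCM.ne_zero hα
      have hc0 : (starRingEnd ℂ) α ≠ 0 := by
        rwa [Ne, map_eq_zero]
      have hq0 := card_ne_zero' (F := F)
      have : wval A α * wval A ((starRingEnd ℂ) α) = wval A (Fintype.card F : ℂ) := by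
        apply Units.ext
        rw [Units.val_mul, coe_wval A hα0, coe_wval A hc0, coe_wval A hq0, ← map_mul, hα.norm]
      show hval A (sym α + sym ((starRingEnd ℂ) α) - sym (Fintype.card F : ℂ)) = 0
      rw [map_sub, map_add, hval_sym, hval_sym, hval_sym, ← this, ofMul_mul, sub_self]
    · have j1 := jac_ne_zero h1 h2 h4
      have j2 := jac_ne_zero h4 h3 h6
      have j3 := jac_ne_zero h2 h3 h5
      have j4 := jac_ne_zero h1 h5 (by rwa [← mul_assoc])
      have : wval A (jacobiSum χ ψ) * wval A (jacobiSum (χ * ψ) φ) =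
          wval A (jacobiSum ψ φ) * wval A (jacobiSum χ (ψ * φ)) := by
        apply Units.ext
        rw [Units.val_mul, Units.val_mul, coe_wval A j1, coe_wval A j2, coe_wval A j3,
          coe_wval A j4, ← map_mul, ← map_mul, jac_mul h4 h5 h6]
      show hval A (sym (jacobiSum χ ψ) + sym (jacobiSum (χ * ψ) φ) - sym (jacobiSum ψ φ) -
          sym (jacobiSum χ (ψ * φ))) = 0
      rw [map_sub, map_sub, map_add, hval_sym, hval_sym, hval_sym, hval_sym, ← ofMul_mul, this,
        ofMul_mul]
      abel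
  exact this hx

end

theorem integral_of_rel {m i w ν : ℕ} {α : Fin i → ℂ} {β : Fin w → ℂ}
    (hα : ∀ j, IsCM m F (α j)) (hβ : ∀ k, IsCM m F (β k))
    (h : ∑ j, sym (α j) - ν • sym (Fintype.card F : ℂ) - ∑ k, sym (β k) ∈ relations m F) :
    IsIntegral ℤ ((∏ j, α j) / (Fintype.card F : ℂ) ^ ν) := by
  rw [Pool.Agent.Helper35.GT.isIntegral_iff]
  intro A
  have hq0 := card_ne_zero' (F := F)
  have hqp := valuation_card_pos (F := F) A
  have h1 := hval_relations A h
  rw [map_sub, map_sub, map_sum, map_sum, map_nsmul] at h1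
  simp only [hval_sym] at h1
  rw [sub_sub, sub_eq_zero, ← ofMul_prod, ← ofMul_prod, ← ofMul_pow, ← ofMul_mul] at h1
  have h2 : ∏ j, wval A (α j) = wval A (Fintype.card F : ℂ) ^ ν * ∏ k, wval A (β k) :=
    Additive.ofMul.injective h1
  have h3 := congrArg (Units.val) h2
  rw [Units.coe_prod, Units.val_mul, Units.val_pow_eq_pow_val, Units.coe_prod,
    coe_wval A hq0] at h3
  have h4 : ∏ j, A.valuation (α j) =
      A.valuation (Fintype.card F : ℂ) ^ ν * ∏ k, A.valuation (β k) := by
    rw [← Finset.prod_congr rfl fun j _ => coe_wval A (IsCM.ne_zero (hα j)), h3]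
    congr 1
    exact Finset.prod_congr rfl fun k _ => coe_wval A (IsCM.ne_zero (hβ k))
  rw [map_div₀, map_prod, h4, map_pow, mul_div_assoc, mul_comm, div_mul_cancel₀]
  · exact Finset.prod_le_one' fun k _ => valuation_le_one (hβ k).integral A
  · exact (pow_pos hqp _).ne'

end Pool.Agent.Helper15.CC
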