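import Pool.Agent.Helper70.CC.Place
import Pool.Agent.Helper35.GT.Val

/-!
# Kronecker: CM numbers with the same slopes differ by a root of unity
-/

set_option autoImplicit false

namespace Pool.Agent.Helper15.CC

open Pool.Agent.Helper70.CC IntermediateField

variable {F : Type} [Field F] [Fintype F]

theorem card_eq_pow : ∃ n : ℕ, 0 < n ∧ Fintype.card F = ringChar F ^ n ∧ (ringChar F).Prime := by
  haveI := ringChar.charP F
  obtain ⟨p, _⟩ := CharP.exists F
  obtain ⟨n, hp, hn⟩ := FiniteField.card F p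
  have : p = ringChar F := (ringChar.eq F p).symm ▸ rfl
  subst this
  exact ⟨n, n.pos, hn, hp⟩

theorem card_ne_zero' : (Fintype.card F : ℂ) ≠ 0 := by
  exact_mod_cast Fintype.card_ne_zero

theorem resDeg_pos {m : ℕ} (hm : 3 ≤ m) (hF : m ∣ Fintype.card F - 1) : 0 < resDeg m F := by
  obtain ⟨n, hn, hc, -⟩ := card_eq_pow (F := F)
  unfold resDeg
  rw [orderOf_pos_iff, isOfFinOrder_iff_pow_eq_one]
  refine ⟨n, hn, ?_⟩
  have h1 : 1 ≤ Fintype.card F := Fintype.card_pos
  have h2 : ((Fintype.card F - 1 : ℕ) : ZMod m) = 0 := (ZMod.natCast_eq_zero_iff _ _).2 hF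
  rw [Nat.cast_sub h1, Nat.cast_one, sub_eq_zero] at h2
  rw [← h2, hc]; push_cast; rfl

theorem valuation_le_one {x : ℂ} (h : IsIntegral ℤ x) (A : ValuationSubring ℂ) :
    A.valuation x ≤ 1 := Pool.Agent.Helper35.GT.isIntegral_iff.1 h A

theorem isIntegral_conj {x : ℂ} (h : IsIntegral ℤ x) : IsIntegral ℤ ((starRingEnd ℂ) x) :=
  h.map (starRingEnd ℂ).toIntAlgHom

theorem IsCM.ne_zero {m : ℕ} {α : ℂ} (h : IsCM m F α) : α ≠ 0 := by
  intro h0
  have := h.norm
  rw [h0, zero_mul] at this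
  exact card_ne_zero' (F := F) this.symm

/-- Where `q` is a unit, a CM number is a unit. -/
theorem IsCM.valuation_eq_one {m : ℕ} {α : ℂ} (h : IsCM m F α) {A : ValuationSubring ℂ}
    (hA : A.valuation (Fintype.card F : ℂ) = 1) : A.valuation α = 1 := by
  have h1 := valuation_le_one h.integral A
  have h2 := valuation_le_one (isIntegral_conj h.integral) A
  have h3 : A.valuation α * A.valuation ((starRingEnd ℂ) α) = 1 := by
    rw [← map_mul, h.norm, hA]
  refine le_antisymm h1 ?_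
  by_contra hlt
  push Not at hlt
  have h4 : A.valuation α * A.valuation ((starRingEnd ℂ) α) < 1 :=
    mul_lt_one_of_lt_of_le hlt h2
  exact absurd h3 h4.ne

/-- The field generated by the `m`-th roots of unity. -/
noncomputable abbrev cyc (m : ℕ) : IntermediateField ℚ ℂ := adjoin ℚ {z : ℂ | z ^ m = 1}

theorem finite_roots {m : ℕ} (hm : 0 < m) : {z : ℂ | z ^ m = 1}.Finite := by
  have : {z : ℂ | z ^ m = 1} ⊆ ((Polynomial.X ^ m - 1 : Polynomial ℂ).roots.toFinset : Set ℂ) := by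
    intro z hz
    have h0 : (Polynomial.X ^ m - 1 : Polynomial ℂ) ≠ 0 := Polynomial.X_pow_sub_C_ne_zero hm 1
    simp only [Finset.mem_coe, Multiset.mem_toFinset, Polynomial.mem_roots h0,
      Polynomial.IsRoot.def, Polynomial.eval_sub, Polynomial.eval_pow, Polynomial.eval_X,
      Polynomial.eval_one]
    rw [sub_eq_zero]; exact hz
  exact (Finset.finite_toSet _).subset this

theorem finiteDimensional_cyc {m : ℕ} (hm : 0 < m) : FiniteDimensional ℚ (cyc m) := by
  have : Finite {z : ℂ | z ^ m = 1} := (finite_roots hm).to_subtype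
  refine finiteDimensional_adjoin fun z hz => ?_
  exact IsIntegral.of_pow hm (by rw [show z ^ m = 1 from hz]; exact isIntegral_one)

/-- Complex conjugation on the field of the `m`-th roots of unity commutes with embeddings. -/
theorem conj_comm {m : ℕ} (hm : 0 < m) (φ : cyc m →+* ℂ) {x y : cyc m}
    (h : (y : ℂ) = (starRingEnd ℂ) (x : ℂ)) : φ y = (starRingEnd ℂ) (φ x) := by
  have key : ∀ z : ℂ, ∀ hz : z ∈ cyc m, ∃ hz' : (starRingEnd ℂ) z ∈ cyc m,
      φ ⟨(starRingEnd ℂ) z, hz'⟩ = (starRingEnd ℂ) (φ ⟨z, hz⟩) := by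
    intro z hz
    induction hz using adjoin_induction with
    | mem z hz =>
      have hz1 : z ^ m = 1 := hz
      have hn : ‖z‖ = 1 := by
        have h2 := congrArg norm hz1
        rw [norm_pow, norm_one] at h2
        exact (pow_eq_one_iff_of_nonneg (norm_nonneg z) hm.ne').1 h2
      have hi : (starRingEnd ℂ) z = z⁻¹ := by
        rw [Complex.inv_def, Complex.normSq_eq_norm_sq, hn]; simp
      have hzm : z ∈ cyc m := subset_adjoin ℚ _ hz
      refine ⟨by rw [hi]; exact inv_mem hzm, ?_⟩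
      have e1 : (⟨(starRingEnd ℂ) z, by rw [hi]; exact inv_mem hzm⟩ : cyc m) =
          (⟨z, hzm⟩ : cyc m)⁻¹ := Subtype.ext hi
      rw [e1, map_inv₀]
      have hw : (φ ⟨z, hzm⟩) ^ m = 1 := by
        rw [← map_pow]
        have : (⟨z, hzm⟩ : cyc m) ^ m = 1 := Subtype.ext (by simpa using hz1)
        rw [this, map_one]
      have hn2 : ‖φ ⟨z, hzm⟩‖ = 1 := by
        have h2 := congrArg norm hw
        rw [norm_pow, norm_one] at h2
        exact (pow_eq_one_iff_of_nonneg (norm_nonneg _) hm.ne').1 h2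
      rw [Complex.inv_def, Complex.normSq_eq_norm_sq, hn2]; simp
    | algebraMap q =>
      have e1 : (starRingEnd ℂ) ((algebraMap ℚ ℂ) q) = (algebraMap ℚ ℂ) q := by simp
      refine ⟨by rw [e1]; exact IntermediateField.algebraMap_mem _ q, ?_⟩
      have e2 : (⟨(algebraMap ℚ ℂ) q, IntermediateField.algebraMap_mem _ q⟩ : cyc m) = algebraMap ℚ (cyc m) q := rfl
      have e3 : (⟨(starRingEnd ℂ) ((algebraMap ℚ ℂ) q), by rw [e1]; exact IntermediateField.algebraMap_mem _ q⟩ :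
          cyc m) = algebraMap ℚ (cyc m) q := Subtype.ext e1
      rw [e3, e2]
      have e4 : φ (algebraMap ℚ (cyc m) q) = (q : ℂ) := by
        rw [eq_ratCast, map_ratCast]
      rw [e4]; simp
    | add x y hx hy ihx ihy =>
      obtain ⟨hx', ex⟩ := ihx
      obtain ⟨hy', ey⟩ := ihy
      refine ⟨by rw [map_add]; exact add_mem hx' hy', ?_⟩
      have e1 : (⟨(starRingEnd ℂ) (x + y), by rw [map_add]; exact add_mem hx' hy'⟩ : cyc m) =
          ⟨(starRingEnd ℂ) x, hx'⟩ + ⟨(starRingEnd ℂ) y, hy'⟩ := Subtype.ext (map_add _ _ _)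
      have e2 : (⟨x + y, add_mem hx hy⟩ : cyc m) = ⟨x, hx⟩ + ⟨y, hy⟩ := rfl
      rw [e1, e2, map_add, map_add, map_add, ex, ey]
    | inv x hx ihx =>
      obtain ⟨hx', ex⟩ := ihx
      refine ⟨by rw [map_inv₀]; exact inv_mem hx', ?_⟩
      have e1 : (⟨(starRingEnd ℂ) x⁻¹, by rw [map_inv₀]; exact inv_mem hx'⟩ : cyc m) =
          (⟨(starRingEnd ℂ) x, hx'⟩)⁻¹ := Subtype.ext (map_inv₀ _ _)
      have e2 : (⟨x⁻¹, inv_mem hx⟩ : cyc m) = (⟨x, hx⟩)⁻¹ := rfl
      rw [e1, e2, map_inv₀, map_inv₀, map_inv₀, ex]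
    | mul x y hx hy ihx ihy =>
      obtain ⟨hx', ex⟩ := ihx
      obtain ⟨hy', ey⟩ := ihy
      refine ⟨by rw [map_mul]; exact mul_mem hx' hy', ?_⟩
      have e1 : (⟨(starRingEnd ℂ) (x * y), by rw [map_mul]; exact mul_mem hx' hy'⟩ : cyc m) =
          ⟨(starRingEnd ℂ) x, hx'⟩ * ⟨(starRingEnd ℂ) y, hy'⟩ := Subtype.ext (map_mul _ _ _)
      have e2 : (⟨x * y, mul_mem hx hy⟩ : cyc m) = ⟨x, hx⟩ * ⟨y, hy⟩ := rfl
      rw [e1, e2, map_mul, map_mul, map_mul, ex, ey]
  obtain ⟨hz', e⟩ := key x x.2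
  have e1 : y = ⟨(starRingEnd ℂ) (x : ℂ), hz'⟩ := Subtype.ext h
  rw [e1, e]

/-- **Kronecker.** -/
theorem kron {m : ℕ} (hm : 3 ≤ m) (hF : m ∣ Fintype.card F - 1) {α β : ℂ} (hα : IsCM m F α)
    (hβ : IsCM m F β)
    (h : ∀ A : ValuationSubring ℂ, A.valuation ((ringChar F : ℕ) : ℂ) < 1 →
      A.valuation (α ^ resDeg m F) = A.valuation (β ^ resDeg m F)) :
    ∃ N : ℕ, 0 < N ∧ α ^ N = β ^ N := by
  have hm0 : 0 < m := by omega
  have hf := resDeg_pos hm hF
  have hfd := finiteDimensional_cyc hm0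
  have : NumberField (cyc m) := { to_finiteDimensional := hfd }
  set f := resDeg m F with hfdef
  have hα0 := IsCM.ne_zero hα
  have hβ0 := IsCM.ne_zero hβ
  -- the quotient
  have hmem : (α / β) ^ f ∈ cyc m := pow_mem (div_mem hα.mem hβ.mem) f
  let x : cyc m := ⟨(α / β) ^ f, hmem⟩
  have hint : IsIntegral ℤ ((α / β) ^ f) := by
    rw [Pool.Agent.Helper35.GT.isIntegral_iff]
    intro A
    by_cases hA : A.valuation ((ringChar F : ℕ) : ℂ) < 1
    · rw [div_pow, map_div₀, h A hA, div_self]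
      exact (Valuation.ne_zero_iff _).2 (pow_ne_zero _ hβ0)
    · have hp1 : A.valuation ((ringChar F : ℕ) : ℂ) = 1 := by
        refine le_antisymm (valuation_le_one ?_ A) (not_lt.1 hA)
        have := isIntegral_algebraMap (R := ℤ) (A := ℂ) (x := ((ringChar F : ℕ) : ℤ))
        simpa using this
      obtain ⟨n, hn, hc, -⟩ := card_eq_pow (F := F)
      have hq1 : A.valuation (Fintype.card F : ℂ) = 1 := by
        rw [hc]; push_cast; rw [map_pow, hp1, one_pow]
      rw [map_pow, map_div₀, IsCM.valuation_eq_one hα hq1, IsCM.valuation_eq_one hβ hq1]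
      simp
  have hxint : IsIntegral ℤ x := by
    have : IsIntegral ℤ (algebraMap (cyc m) ℂ x) := hint
    exact (isIntegral_algHom_iff (IsScalarTower.toAlgHom ℤ (cyc m) ℂ)
      (algebraMap (cyc m) ℂ).injective).1 this
  -- the norm
  have hnorm : ∀ φ : cyc m →+* ℂ, ‖φ x‖ = 1 := by
    intro φ
    have hcm : (starRingEnd ℂ) ((α / β) ^ f) ∈ cyc m := by
      have h1 : ((α / β) ^ f) * (starRingEnd ℂ) ((α / β) ^ f) = 1 := by
        rw [map_pow, ← mul_pow, map_div₀, div_mul_div_comm, hα.norm, hβ.norm,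
          div_self (card_ne_zero' (F := F)), one_pow]
      have h2 : (starRingEnd ℂ) ((α / β) ^ f) = ((α / β) ^ f)⁻¹ :=
        (inv_eq_of_mul_eq_one_right h1).symm
      rw [h2]; exact inv_mem hmem
    let y : cyc m := ⟨(starRingEnd ℂ) ((α / β) ^ f), hcm⟩
    have hxy : x * y = 1 := by
      apply Subtype.ext
      show ((α / β) ^ f) * (starRingEnd ℂ) ((α / β) ^ f) = 1
      rw [map_pow, ← mul_pow, map_div₀, div_mul_div_comm, hα.norm, hβ.norm,
          div_self (card_ne_zero' (F := F)), one_pow]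
    have h3 : φ y = (starRingEnd ℂ) (φ x) := conj_comm hm0 φ rfl
    have h4 : φ x * (starRingEnd ℂ) (φ x) = 1 := by rw [← h3, ← map_mul, hxy, map_one]
    rw [Complex.mul_conj, Complex.normSq_eq_norm_sq] at h4
    have h5 : ‖φ x‖ ^ 2 = 1 := by exact_mod_cast h4
    exact (pow_eq_one_iff_of_nonneg (norm_nonneg _) two_ne_zero).1 h5
  obtain ⟨n, hn, he⟩ := NumberField.Embeddings.pow_eq_one_of_norm_eq_one (cyc m) ℂ hxint hnorm
  refine ⟨f * n, Nat.mul_pos hf hn, ?_⟩
  have h6 : ((α / β) ^ f) ^ n = 1 := by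
    have := congrArg (algebraMap (cyc m) ℂ) he
    rw [map_pow, map_one] at this
    exact this
  rw [← pow_mul, div_pow, div_eq_one_iff_eq (pow_ne_zero _ hβ0)] at h6
  exact h6

end Pool.Agent.Helper15.CC
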